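import Mathlib

set_option autoImplicit false

open Set Filter Topology TopologicalSpace

namespace Pool.Agent.Results.MP_85483e_gt.FanRetract

/-- The equivalence relation on `Z × [0,1]` which identifies all points `(z, 1)` with each other
and nothing else. -/
def coneSetoid (Z : Type) : Setoid (Z × unitInterval) where
  r a b := a = b ∨ (a.2 = 1 ∧ b.2 = 1)
  iseqv := {
    refl := fun a => Or.inl rfl
    symm := by
      rintro a b (h | ⟨h, h'⟩)
      · exact Or.inl h.symm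
      · exact Or.inr ⟨h', h⟩
    trans := by
      rintro a b c (h | ⟨h, h'⟩) (k | ⟨k, k'⟩)
      · exact Or.inl (h.trans k)
      · subst h; exact Or.inr ⟨k, k'⟩
      · subst k; exact Or.inr ⟨h, h'⟩
      · exact Or.inr ⟨h, k'⟩ }

/-- The cone `Z × [0,1] / (Z × {1})` over the space `Z`. -/
def Cone (Z : Type) : Type := Quotient (coneSetoid Z)

/-- The cone carries the quotient topology. -/
instance (Z : Type) [TopologicalSpace Z] : TopologicalSpace (Cone Z) :=
  inferInstanceAs (TopologicalSpace (Quotient (coneSetoid Z)))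

/-- There is a retraction of the hyperspace `2^M` of all nonempty compact subsets of `M`
onto the hyperspace `C(M)` of all connected ones. -/
def RetractExists (M : Type) [TopologicalSpace M] : Prop :=
  ∃ r : NonemptyCompacts M → NonemptyCompacts M, Continuous r ∧
    (∀ A : NonemptyCompacts M, IsConnected (r A : Set M)) ∧
    ∀ A : NonemptyCompacts M, IsConnected (A : Set M) → r A = A

/-- Auxiliary: a parametrisation of the cone by base points and heights. -/
structure Fan (Z M : Type) [MetricSpace Z] [TopologicalSpace M] where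
  q : Z → ℝ → M
  cont : Continuous (fun x : Z × ℝ => q x.1 x.2)
  surj : ∀ x, ∃ z, ∃ h, h ∈ Icc (0:ℝ) 1 ∧ q z h = x
  inj : ∀ z z' h h', h ∈ Icc (0:ℝ) 1 → h' ∈ Icc (0:ℝ) 1 →
    (q z h = q z' h' ↔ (z = z' ∧ h = h') ∨ (h = 0 ∧ h' = 0))

lemma cont_sSup {M : Type} [TopologicalSpace M] (f : M → ℝ) (hf : Continuous f) :
    Continuous fun A : NonemptyCompacts M => sSup (f '' (A : Set M)) := by
  rw [OrderTopology.continuous_iff]
  intro a
  have hbdd : ∀ A : NonemptyCompacts M, BddAbove (f '' (A : Set M)) := fun A =>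
    (A.isCompact.image hf).bddAbove
  have hne : ∀ A : NonemptyCompacts M, (f '' (A : Set M)).Nonempty := fun A => A.nonempty.image _
  constructor
  · have : (fun A : NonemptyCompacts M => sSup (f '' (A : Set M))) ⁻¹' Ioi a =
        {A : NonemptyCompacts M | ((A : Set M) ∩ f ⁻¹' Ioi a).Nonempty} := by
      ext A
      simp only [mem_preimage, mem_Ioi, Set.mem_ofPred_eq]
      rw [lt_csSup_iff (hbdd A) (hne A)]
      constructor
      · rintro ⟨_, ⟨x, hx, rfl⟩, h⟩
        exact ⟨x, hx, h⟩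
      · rintro ⟨x, hx, h⟩
        exact ⟨_, ⟨x, hx, rfl⟩, h⟩
    rw [this]
    exact NonemptyCompacts.isOpen_inter_nonempty_of_isOpen (isOpen_Ioi.preimage hf)
  · have : (fun A : NonemptyCompacts M => sSup (f '' (A : Set M))) ⁻¹' Iio a =
        {A : NonemptyCompacts M | (A : Set M) ⊆ f ⁻¹' Iio a} := by
      ext A
      simp only [mem_preimage, mem_Iio, Set.mem_ofPred_eq]
      constructor
      · intro h x hx
        exact lt_of_le_of_lt (le_csSup (hbdd A) ⟨x, hx, rfl⟩) h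
      · intro h
        obtain ⟨x, hx, hx'⟩ := (A.isCompact.image hf).sSup_mem (hne A)
        rw [← hx']
        exact h hx
    rw [this]
    exact NonemptyCompacts.isOpen_subsets_of_isOpen (isOpen_Iio.preimage hf)

lemma cont_sInf {M : Type} [TopologicalSpace M] (f : M → ℝ) (hf : Continuous f) :
    Continuous fun A : NonemptyCompacts M => sInf (f '' (A : Set M)) := by
  have h : (fun A : NonemptyCompacts M => sInf (f '' (A : Set M))) =
      fun A : NonemptyCompacts M => - sSup ((fun x => - f x) '' (A : Set M)) := by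
    funext A
    rw [Real.sInf_def, ← Set.image_neg_eq_neg, Set.image_image]
  rw [h]
  exact (cont_sSup _ hf.neg).neg

/-- the unit interval as a compact set of numbers -/
def II : NonemptyCompacts ℝ := ⟨⟨Icc 0 1, isCompact_Icc⟩, ⟨0, by simp⟩⟩

lemma mem_II (t : ℝ) : t ∈ II ↔ t ∈ Icc (0:ℝ) 1 := Iff.rfl

namespace Fan

set_option linter.unusedSectionVars false

variable {Z M : Type} [MetricSpace Z] [TopologicalSpace M] (F : Fan Z M)

def Q (x : Z × Icc (0:ℝ) 1) : M := F.q x.1 x.2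

lemma Q_cont : Continuous F.Q :=
  F.cont.comp (continuous_fst.prodMk (continuous_subtype_val.comp continuous_snd))

lemma Q_surj : Function.Surjective F.Q := by
  intro x
  obtain ⟨z, h, hh, hx⟩ := F.surj x
  exact ⟨(z, ⟨h, hh⟩), hx⟩

noncomputable def bs (x : M) : Z := (F.surj x).choose
noncomputable def ht (x : M) : ℝ := (F.surj x).choose_spec.choose

lemma ht_mem (x : M) : F.ht x ∈ Icc (0:ℝ) 1 := (F.surj x).choose_spec.choose_spec.1
lemma q_bs_ht (x : M) : F.q (F.bs x) (F.ht x) = x := (F.surj x).choose_spec.choose_spec.2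

lemma q_zero (z z' : Z) : F.q z 0 = F.q z' 0 := by
  rw [F.inj z z' 0 0 (by simp) (by simp)]
  right; simp

lemma ht_q (z : Z) {h : ℝ} (hh : h ∈ Icc (0:ℝ) 1) : F.ht (F.q z h) = h := by
  rcases (F.inj _ _ _ _ (F.ht_mem (F.q z h)) hh).1 (F.q_bs_ht (F.q z h)) with ⟨_, h2⟩ | ⟨h1, h2⟩
  · exact h2
  · rw [h1, h2]

lemma bs_q (z : Z) {h : ℝ} (hh : h ∈ Icc (0:ℝ) 1) (h0 : h ≠ 0) : F.bs (F.q z h) = z := by
  rcases (F.inj _ _ _ _ (F.ht_mem (F.q z h)) hh).1 (F.q_bs_ht (F.q z h)) with ⟨h1, _⟩ | ⟨_, h2⟩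
  · exact h1
  · exact absurd h2 h0

noncomputable def sc (l : ℝ) (x : M) : M := F.q (F.bs x) (l * F.ht x)

lemma sc_q (l : ℝ) (z : Z) {h : ℝ} (hh : h ∈ Icc (0:ℝ) 1) : F.sc l (F.q z h) = F.q z (l * h) := by
  unfold sc
  rw [F.ht_q z hh]
  by_cases h0 : h = 0
  · subst h0
    rw [mul_zero]
    exact F.q_zero _ _
  · rw [F.bs_q z hh h0]

/-- the leg over `z` -/
def leg (z : Z) : Set M := {x | F.ht x = 0 ∨ F.bs x = z}

lemma leg_eq {z : Z} {x : M} (hx : x ∈ F.leg z) : F.q z (F.ht x) = x := by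
  rcases hx with h | h
  · conv_rhs => rw [← F.q_bs_ht x]
    rw [h]
    exact F.q_zero _ _
  · rw [← h]
    exact F.q_bs_ht x

lemma q_mem_leg (z : Z) {h : ℝ} (hh : h ∈ Icc (0:ℝ) 1) : F.q z h ∈ F.leg z := by
  by_cases h0 : h = 0
  · left; rw [F.ht_q z hh, h0]
  · right; exact F.bs_q z hh h0

/-- the arc over `z` between the heights `a` and `b` -/
noncomputable def P (z : Z) (a b : ℝ) : NonemptyCompacts M :=
  II.map (fun t => F.q z (a + t * (b - a)))
    (F.cont.comp (continuous_const.prodMk (by fun_prop)))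

lemma mem_P {z : Z} {a b : ℝ} (hab : a ≤ b) (x : M) :
    x ∈ F.P z a b ↔ ∃ h ∈ Icc a b, F.q z h = x := by
  rw [← SetLike.mem_coe, P, NonemptyCompacts.coe_map]
  constructor
  · rintro ⟨t, ht, rfl⟩
    have ht' : t ∈ Icc (0:ℝ) 1 := ht
    refine ⟨a + t * (b - a), ⟨?_, ?_⟩, rfl⟩
    · nlinarith [ht'.1, ht'.2]
    · nlinarith [ht'.1, ht'.2]
  · rintro ⟨h, hh, rfl⟩
    rcases eq_or_lt_of_le hab with he | hl
    · refine ⟨0, ?_, ?_⟩
      · change (0:ℝ) ∈ Icc (0:ℝ) 1
        simp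
      · have : h = a := le_antisymm (by rw [he]; exact hh.2) hh.1
        simp [this]
    · refine ⟨(h - a) / (b - a), ?_, ?_⟩
      · change (h - a) / (b - a) ∈ Icc (0:ℝ) 1
        constructor
        · exact div_nonneg (by linarith [hh.1]) (by linarith)
        · rw [div_le_one (by linarith)]; linarith [hh.2]
      · have : a + (h - a) / (b - a) * (b - a) = h := by
          rw [div_mul_cancel₀ _ (by linarith : (b - a) ≠ 0)]; ring
        simp only [this]

lemma P_cont : Continuous (fun x : Z × ℝ × ℝ => F.P x.1 x.2.1 x.2.2) := by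
  unfold P
  refine Continuous.nonemptyCompacts_map' continuous_const ?_
  exact F.cont.comp ((continuous_fst.comp continuous_fst).prodMk (by fun_prop))

lemma P_conn (z : Z) (a b : ℝ) : IsConnected (F.P z a b : Set M) := by
  rw [P, NonemptyCompacts.coe_map]
  refine IsConnected.image ?_ _ (F.cont.comp (continuous_const.prodMk (by fun_prop))).continuousOn
  exact isConnected_Icc (by norm_num : (0:ℝ) ≤ 1)

variable [CompactSpace Z] [T2Space M]

lemma Q_quot : IsQuotientMap F.Q :=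
  F.Q_cont.isProperMap.isClosedMap.isQuotientMap F.Q_cont F.Q_surj

lemma ht_cont : Continuous F.ht := by
  rw [F.Q_quot.continuous_iff]
  have : F.ht ∘ F.Q = fun x => (x.2 : ℝ) := by
    funext x
    exact F.ht_q x.1 x.2.2
  rw [this]
  fun_prop

lemma y_cont (z0 : Z) : Continuous (fun x => F.ht x * dist (F.bs x) z0) := by
  rw [F.Q_quot.continuous_iff]
  have : (fun x => F.ht x * dist (F.bs x) z0) ∘ F.Q = fun x => (x.2 : ℝ) * dist x.1 z0 := by
    funext x
    change F.ht (F.q x.1 x.2) * dist (F.bs (F.q x.1 x.2)) z0 = _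
    rw [F.ht_q x.1 x.2.2]
    by_cases h0 : (x.2 : ℝ) = 0
    · rw [h0]; simp
    · rw [F.bs_q x.1 x.2.2 h0]
  rw [this]
  fun_prop

lemma sc_cont : Continuous (fun x : ℝ × M => F.sc x.1 x.2) := by
  have hq : IsQuotientMap (Prod.map (id : ℝ → ℝ) F.Q) := by
    have hp : IsProperMap (Prod.map (id : ℝ → ℝ) F.Q) :=
      isProperMap_id.prodMap F.Q_cont.isProperMap
    exact hp.isClosedMap.isQuotientMap hp.continuous
      (Function.surjective_id.prodMap F.Q_surj)
  rw [hq.continuous_iff]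
  have : (fun x : ℝ × M => F.sc x.1 x.2) ∘ (Prod.map (id : ℝ → ℝ) F.Q) =
      fun x => F.q x.2.1 (x.1 * x.2.2) := by
    funext x
    exact F.sc_q x.1 x.2.1 x.2.2.2
  rw [this]
  exact F.cont.comp ((continuous_fst.comp continuous_snd).prodMk (by fun_prop))

/-- everything below `A` -/
noncomputable def D (A : NonemptyCompacts M) : NonemptyCompacts M :=
  (II ×ˢ A).map (fun x => F.sc x.1 x.2) F.sc_cont

lemma D_cont : Continuous F.D := by
  unfold D
  exact F.sc_cont.nonemptyCompacts_map.comp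
    (NonemptyCompacts.continuous_prod.comp (continuous_const.prodMk continuous_id))

lemma mem_D (A : NonemptyCompacts M) (x : M) :
    x ∈ F.D A ↔ ∃ l ∈ Icc (0:ℝ) 1, ∃ y ∈ A, F.sc l y = x := by
  rw [← SetLike.mem_coe, D, NonemptyCompacts.coe_map, NonemptyCompacts.coe_prod]
  constructor
  · rintro ⟨⟨l, y⟩, ⟨hl, hy⟩, rfl⟩
    exact ⟨l, hl, y, hy, rfl⟩
  · rintro ⟨l, hl, y, hy, rfl⟩
    exact ⟨⟨l, y⟩, ⟨hl, hy⟩, rfl⟩

/-- the set `A` scaled by `l` -/
noncomputable def S (l : ℝ) (A : NonemptyCompacts M) : NonemptyCompacts M :=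
  A.map (F.sc l) (F.sc_cont.comp (continuous_const.prodMk continuous_id))

lemma S_cont : Continuous (fun x : ℝ × NonemptyCompacts M => F.S x.1 x.2) := by
  unfold S
  refine Continuous.nonemptyCompacts_map' continuous_snd ?_
  exact F.sc_cont.comp ((continuous_fst.comp continuous_fst).prodMk continuous_snd)

lemma mem_S (l : ℝ) (A : NonemptyCompacts M) (x : M) :
    x ∈ F.S l A ↔ ∃ y ∈ A, F.sc l y = x := by
  rw [← SetLike.mem_coe, S, NonemptyCompacts.coe_map]
  rfl

noncomputable def mn (A : NonemptyCompacts M) : ℝ := sInf (F.ht '' (A : Set M))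
noncomputable def mx (A : NonemptyCompacts M) : ℝ := sSup (F.ht '' (A : Set M))
noncomputable def sg (z0 : Z) (A : NonemptyCompacts M) : ℝ :=
  sSup ((fun x => F.ht x * dist (F.bs x) z0) '' (A : Set M))

omit [CompactSpace Z] [T2Space M] in
lemma mn_nonneg (A : NonemptyCompacts M) : 0 ≤ F.mn A :=
  le_csInf (A.nonempty.image _) (by rintro _ ⟨x, _, rfl⟩; exact (F.ht_mem x).1)

omit [CompactSpace Z] [T2Space M] in
lemma mn_le {A : NonemptyCompacts M} {x : M} (hx : x ∈ A) : F.mn A ≤ F.ht x :=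
  csInf_le ⟨0, by rintro _ ⟨x, _, rfl⟩; exact (F.ht_mem x).1⟩ ⟨x, hx, rfl⟩

omit [CompactSpace Z] [T2Space M] in
lemma le_mx {A : NonemptyCompacts M} {x : M} (hx : x ∈ A) : F.ht x ≤ F.mx A :=
  le_csSup ⟨1, by rintro _ ⟨x, _, rfl⟩; exact (F.ht_mem x).2⟩ ⟨x, hx, rfl⟩

omit [CompactSpace Z] [T2Space M] in
lemma mx_le_one (A : NonemptyCompacts M) : F.mx A ≤ 1 :=
  csSup_le (A.nonempty.image _) (by rintro _ ⟨x, _, rfl⟩; exact (F.ht_mem x).2)

omit [CompactSpace Z] [T2Space M] in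
lemma mn_le_mx (A : NonemptyCompacts M) : F.mn A ≤ F.mx A := by
  obtain ⟨x, hx⟩ := A.nonempty
  exact (F.mn_le hx).trans (F.le_mx hx)

lemma exists_mn (A : NonemptyCompacts M) : ∃ x ∈ A, F.ht x = F.mn A := by
  obtain ⟨x, hx, h⟩ := (A.isCompact.image F.ht_cont).sInf_mem (A.nonempty.image _)
  exact ⟨x, hx, h⟩

lemma exists_mx (A : NonemptyCompacts M) : ∃ x ∈ A, F.ht x = F.mx A := by
  obtain ⟨x, hx, h⟩ := (A.isCompact.image F.ht_cont).sSup_mem (A.nonempty.image _)
  exact ⟨x, hx, h⟩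

/-- the parameter of the transition -/
noncomputable def tau (m s : ℝ) : ℝ := if m = 0 then 1 else max 0 (min 1 ((s - m) / m))

lemma tau_mem (m s : ℝ) : tau m s ∈ Icc (0:ℝ) 1 := by
  unfold tau
  split_ifs
  · simp
  · exact ⟨le_max_left _ _, max_le (by norm_num) (min_le_left _ _)⟩

open Classical in
/-- the transition from an arc in the leg over `z0` to the set `B` -/
noncomputable def G (z0 : Z) (m x t : ℝ) (B : NonemptyCompacts M) : NonemptyCompacts M :=
  if t ≤ 1 / 3 then F.P z0 ((1 - 3 * t) * m) x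
  else F.P z0 0 (min 1 (3 - 3 * t) * x) ⊔ F.S (min 1 (3 * t - 1)) B

lemma v_mem_P (z z' : Z) {b : ℝ} (hb : 0 ≤ b) : F.q z' 0 ∈ F.P z 0 b := by
  rw [F.mem_P hb]
  exact ⟨0, ⟨le_refl _, hb⟩, F.q_zero _ _⟩

lemma G_cont (z0 : Z) : Continuous (fun x : ℝ × ℝ × ℝ × NonemptyCompacts M =>
    F.G z0 x.1 (max 0 x.2.1) x.2.2.1 x.2.2.2) := by
  unfold G
  refine Continuous.if_le ?_ ?_ (by fun_prop) continuous_const ?_
  · exact F.P_cont.comp (continuous_const.prodMk ((by fun_prop : Continuous _).prodMk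
      (by fun_prop)))
  · refine Continuous.sup ?_ ?_
    · exact F.P_cont.comp (continuous_const.prodMk ((by fun_prop : Continuous _).prodMk
        (by fun_prop)))
    · exact F.S_cont.comp ((by fun_prop : Continuous _).prodMk (by fun_prop))
  · rintro ⟨m, x, t, B⟩ (ht : t = 1 / 3)
    subst ht
    apply NonemptyCompacts.ext
    rw [NonemptyCompacts.coe_sup]
    have h1 : (1 - 3 * (1 / 3 : ℝ)) * m = 0 := by ring
    have h2 : min 1 (3 - 3 * (1 / 3 : ℝ)) = 1 := by norm_num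
    have h3 : min 1 (3 * (1 / 3 : ℝ) - 1) = 0 := by norm_num
    simp only [h1, h2, h3, one_mul]
    refine (union_eq_self_of_subset_right ?_).symm
    intro y hy
    obtain ⟨w, _, rfl⟩ := (F.mem_S 0 B y).1 hy
    unfold sc
    rw [zero_mul]
    exact F.v_mem_P _ _ (le_max_left _ _)

open Classical in
/-- the retraction -/
noncomputable def r (z0 : Z) (A : NonemptyCompacts M) : NonemptyCompacts M :=
  if h : ∃ z, (A : Set M) ⊆ F.leg z then F.P h.choose (F.mn A) (F.mx A)
  else F.G z0 (F.mn A) (F.mx A) (tau (F.mn A) (F.sg z0 A)) (F.D A)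

lemma P_zero (z z' : Z) : F.P z 0 0 = F.P z' 0 0 := by
  apply NonemptyCompacts.ext
  ext x
  rw [SetLike.mem_coe, SetLike.mem_coe, F.mem_P le_rfl, F.mem_P le_rfl]
  constructor
  · rintro ⟨h, hh, rfl⟩
    have : h = 0 := le_antisymm hh.2 hh.1
    subst this
    exact ⟨0, by simp, F.q_zero _ _⟩
  · rintro ⟨h, hh, rfl⟩
    have : h = 0 := le_antisymm hh.2 hh.1
    subst this
    exact ⟨0, by simp, F.q_zero _ _⟩

lemma P_leg {A : NonemptyCompacts M} {z z' : Z} (h : (A : Set M) ⊆ F.leg z)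
    (h' : (A : Set M) ⊆ F.leg z') : F.P z (F.mn A) (F.mx A) = F.P z' (F.mn A) (F.mx A) := by
  by_cases hz : z = z'
  · rw [hz]
  · have h0 : ∀ x ∈ A, F.ht x = 0 := by
      intro x hx
      rcases h hx with h1 | h1
      · exact h1
      rcases h' hx with h2 | h2
      · exact h2
      · exact absurd (h1.symm.trans h2) hz
    have hmx : F.mx A = 0 := by
      obtain ⟨x, hx, h⟩ := F.exists_mx A
      rw [← h, h0 x hx]
    have hmn : F.mn A = 0 := le_antisymm (hmx ▸ F.mn_le_mx A) (F.mn_nonneg A)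
    rw [hmx, hmn]
    exact F.P_zero _ _

lemma r_leg (z0 : Z) {A : NonemptyCompacts M} {z : Z} (h : (A : Set M) ⊆ F.leg z) :
    F.r z0 A = F.P z (F.mn A) (F.mx A) := by
  unfold r
  rw [dif_pos ⟨z, h⟩]
  exact F.P_leg (Exists.choose_spec (⟨z, h⟩ : ∃ z, (A : Set M) ⊆ F.leg z)) h

lemma D_leg {A : NonemptyCompacts M} {z : Z} (h : (A : Set M) ⊆ F.leg z) :
    F.D A = F.P z 0 (F.mx A) := by
  have h0 : 0 ≤ F.mx A := (F.mn_nonneg A).trans (F.mn_le_mx A)
  apply NonemptyCompacts.ext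
  ext x
  rw [SetLike.mem_coe, SetLike.mem_coe, F.mem_P h0, F.mem_D]
  constructor
  · rintro ⟨l, hl, y, hy, rfl⟩
    have hy1 := F.leg_eq (h hy)
    refine ⟨l * F.ht y, ⟨mul_nonneg hl.1 (F.ht_mem y).1, ?_⟩, ?_⟩
    · have := F.le_mx hy
      have := (F.ht_mem y).1
      nlinarith [hl.1, hl.2]
    · rw [← F.sc_q l z (F.ht_mem y), hy1]
  · rintro ⟨s, hs, rfl⟩
    obtain ⟨y, hy, hmx⟩ := F.exists_mx A
    have hy1 := F.leg_eq (h hy)
    rcases eq_or_lt_of_le h0 with he | hl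
    · have : s = 0 := le_antisymm (by rw [he]; exact hs.2) hs.1
      refine ⟨0, by simp, y, hy, ?_⟩
      rw [← hy1, F.sc_q 0 z (F.ht_mem y), this, zero_mul]
    · refine ⟨s / F.mx A, ⟨div_nonneg hs.1 h0, ?_⟩, y, hy, ?_⟩
      · rw [div_le_one hl]; exact hs.2
      · rw [← hy1, F.sc_q _ z (F.ht_mem y), hmx, div_mul_cancel₀ _ hl.ne']

lemma S_P (z : Z) (l b : ℝ) (hl : l ∈ Icc (0:ℝ) 1) (hb : b ∈ Icc (0:ℝ) 1) :
    F.S l (F.P z 0 b) = F.P z 0 (l * b) := by
  apply NonemptyCompacts.ext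
  ext x
  rw [SetLike.mem_coe, SetLike.mem_coe, F.mem_P (mul_nonneg hl.1 hb.1), F.mem_S]
  constructor
  · rintro ⟨y, hy, rfl⟩
    obtain ⟨h, hh, rfl⟩ := (F.mem_P hb.1 y).1 hy
    rw [F.sc_q l z ⟨hh.1, hh.2.trans hb.2⟩]
    exact ⟨l * h, ⟨mul_nonneg hl.1 hh.1, mul_le_mul_of_nonneg_left hh.2 hl.1⟩, rfl⟩
  · rintro ⟨s, hs, rfl⟩
    rcases eq_or_lt_of_le hl.1 with he | hlt
    · have : s = 0 := le_antisymm (by rw [← he, zero_mul] at hs; exact hs.2) hs.1
      refine ⟨F.q z 0, F.v_mem_P _ _ hb.1, ?_⟩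
      rw [F.sc_q l z (by simp), this, mul_zero]
    · have h1 : s / l ∈ Icc 0 b := by
        refine ⟨div_nonneg hs.1 hl.1, ?_⟩
        rw [div_le_iff₀ hlt]
        linarith [hs.2]
      refine ⟨F.q z (s / l), (F.mem_P hb.1 _).2 ⟨_, h1, rfl⟩, ?_⟩
      rw [F.sc_q l z ⟨h1.1, h1.2.trans hb.2⟩, mul_div_cancel₀ _ hlt.ne']

lemma P_mono (z : Z) {a b : ℝ} (ha : 0 ≤ a) (hab : a ≤ b) :
    (F.P z 0 a : Set M) ⊆ F.P z 0 b := by
  intro x hx
  obtain ⟨h, hh, rfl⟩ := (F.mem_P ha x).1 hx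
  exact (F.mem_P (ha.trans hab) _).2 ⟨h, ⟨hh.1, hh.2.trans hab⟩, rfl⟩

/-- the transition does nothing for arcs over `z0` which start at the vertex -/
lemma G_leg (z0 : Z) {b t : ℝ} (hb : b ∈ Icc (0:ℝ) 1) (ht : t ∈ Icc (0:ℝ) 1) :
    F.G z0 0 b t (F.P z0 0 b) = F.P z0 0 b := by
  unfold G
  split_ifs with h
  · rw [mul_zero]
  · have hl : min 1 (3 * t - 1) ∈ Icc (0:ℝ) 1 :=
      ⟨le_min (by norm_num) (by linarith), min_le_left _ _⟩
    have hc : min 1 (3 - 3 * t) ∈ Icc (0:ℝ) 1 :=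
      ⟨le_min (by norm_num) (by linarith [ht.2]), min_le_left _ _⟩
    rw [F.S_P z0 _ b hl hb]
    apply NonemptyCompacts.ext
    rw [NonemptyCompacts.coe_sup]
    apply Subset.antisymm
    · refine union_subset (F.P_mono z0 (mul_nonneg hc.1 hb.1) ?_)
        (F.P_mono z0 (mul_nonneg hl.1 hb.1) ?_)
      · nlinarith [hb.1, hc.2]
      · nlinarith [hb.1, hl.2]
    · rcases le_total t (2 / 3) with h2 | h2
      · have : min 1 (3 - 3 * t) = 1 := min_eq_left (by linarith)
        rw [this, one_mul]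
        exact subset_union_left
      · have : min 1 (3 * t - 1) = 1 := min_eq_left (by linarith)
        rw [this, one_mul]
        exact subset_union_right

lemma S_one (A : NonemptyCompacts M) : F.S 1 A = A := by
  apply NonemptyCompacts.ext
  ext x
  rw [SetLike.mem_coe, F.mem_S]
  have : ∀ y, F.sc 1 y = y := fun y => by unfold sc; rw [one_mul, F.q_bs_ht]
  constructor
  · rintro ⟨y, hy, rfl⟩
    rw [this]; exact hy
  · intro hx
    exact ⟨x, hx, this x⟩

lemma q_zero_mem_D (z : Z) (A : NonemptyCompacts M) : F.q z 0 ∈ F.D A := by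
  rw [F.mem_D]
  obtain ⟨y, hy⟩ := A.nonempty
  refine ⟨0, by simp, y, hy, ?_⟩
  unfold sc
  rw [zero_mul]
  exact F.q_zero _ _

lemma G_one (z0 : Z) (m x : ℝ) (A : NonemptyCompacts M) :
    F.G z0 m x 1 (F.D A) = F.D A := by
  unfold G
  rw [if_neg (by norm_num)]
  have h1 : min 1 (3 - 3 * (1:ℝ)) = 0 := by norm_num
  have h2 : min 1 (3 * (1:ℝ) - 1) = 1 := by norm_num
  rw [h1, h2, F.S_one, zero_mul]
  apply NonemptyCompacts.ext
  rw [NonemptyCompacts.coe_sup]
  refine union_eq_self_of_subset_left ?_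
  intro y hy
  obtain ⟨h, hh, rfl⟩ := (F.mem_P le_rfl y).1 hy
  have : h = 0 := le_antisymm hh.2 hh.1
  subst this
  exact F.q_zero_mem_D _ _

lemma U_open {z : Z} (hz : IsOpen ({z} : Set Z)) :
    IsOpen {x : M | 0 < F.ht x ∧ F.bs x = z} := by
  rw [← F.Q_quot.isOpen_preimage]
  have : F.Q ⁻¹' {x : M | 0 < F.ht x ∧ F.bs x = z} =
      {x : Z × Icc (0:ℝ) 1 | (0:ℝ) < x.2} ∩ Prod.fst ⁻¹' {z} := by
    ext x
    simp only [mem_preimage, Set.mem_ofPred_eq, mem_inter_iff, mem_singleton_iff]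
    change (0 < F.ht (F.q x.1 x.2) ∧ F.bs (F.q x.1 x.2) = z) ↔ _
    rw [F.ht_q x.1 x.2.2]
    constructor
    · rintro ⟨h1, h2⟩
      rw [F.bs_q x.1 x.2.2 h1.ne'] at h2
      exact ⟨h1, h2⟩
    · rintro ⟨h1, h2⟩
      rw [F.bs_q x.1 x.2.2 h1.ne']
      exact ⟨h1, h2⟩
  rw [this]
  exact (isOpen_lt continuous_const (by fun_prop)).inter (hz.preimage continuous_fst)

lemma mem_leg_of_sub {A : NonemptyCompacts M} {z : Z} (h : A ⊔ F.P z 0 1 = F.P z 0 1) :
    (A : Set M) ⊆ F.leg z := by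
  intro x hx
  have hx' : x ∈ F.P z 0 1 := by
    rw [← h, ← SetLike.mem_coe, NonemptyCompacts.coe_sup]
    exact Or.inl hx
  obtain ⟨s, hs, rfl⟩ := (F.mem_P (by norm_num) x).1 hx'
  exact F.q_mem_leg z hs

lemma sub_of_leg {A : NonemptyCompacts M} {z : Z} (h : (A : Set M) ⊆ F.leg z) :
    A ⊔ F.P z 0 1 = F.P z 0 1 := by
  apply NonemptyCompacts.ext
  rw [NonemptyCompacts.coe_sup]
  refine union_eq_self_of_subset_left ?_
  intro x hx
  rw [SetLike.mem_coe, F.mem_P (by norm_num)]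
  exact ⟨F.ht x, F.ht_mem x, F.leg_eq (h hx)⟩

lemma r_cont (z0 : Z) (hiso : ∀ z ≠ z0, IsOpen ({z} : Set Z)) : Continuous (F.r z0) := by
  rw [continuous_iff_ultrafilter]
  intro A g hg
  have hmn : Tendsto F.mn g (𝓝 (F.mn A)) :=
    ((cont_sInf _ F.ht_cont).tendsto A).mono_left hg
  have hmx : Tendsto F.mx g (𝓝 (F.mx A)) :=
    ((cont_sSup _ F.ht_cont).tendsto A).mono_left hg
  have hsg : Tendsto (F.sg z0) g (𝓝 (F.sg z0 A)) :=
    ((cont_sSup _ (F.y_cont z0)).tendsto A).mono_left hg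
  have hD : Tendsto F.D g (𝓝 (F.D A)) := (F.D_cont.tendsto A).mono_left hg
  have hid : Tendsto (fun B : NonemptyCompacts M => B) g (𝓝 A) := hg
  rcases g.em (fun B => ∃ z, (B : Set M) ⊆ F.leg z) with hS | hN
  · classical
    set zc : NonemptyCompacts M → Z := fun B =>
      if h : ∃ z, (B : Set M) ⊆ F.leg z then h.choose else z0 with hzc
    have hzc' : ∀ B : NonemptyCompacts M, (∃ z, (B : Set M) ⊆ F.leg z) →
        (B : Set M) ⊆ F.leg (zc B) := by
      intro B hB
      simp only [hzc, dif_pos hB]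
      exact hB.choose_spec
    obtain ⟨zs, _, hzs⟩ := isCompact_univ.ultrafilter_le_nhds' (g.map zc)
      Filter.univ_mem
    have hzt : Tendsto zc g (𝓝 zs) := hzs
    have h1 : Tendsto (fun B => F.P (zc B) (F.mn B) (F.mx B)) g
        (𝓝 (F.P zs (F.mn A) (F.mx A))) :=
      (F.P_cont.tendsto (zs, F.mn A, F.mx A)).comp (hzt.prodMk_nhds (hmn.prodMk_nhds hmx))
    have h2 : Tendsto (F.r z0) g (𝓝 (F.P zs (F.mn A) (F.mx A))) := by
      refine h1.congr' ?_
      filter_upwards [hS] with B hB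
      exact (F.r_leg z0 (hzc' B hB)).symm
    have h3 : Tendsto (fun B => B ⊔ F.P (zc B) 0 1) g (𝓝 (A ⊔ F.P zs 0 1)) :=
      hid.sup_nhds ((F.P_cont.tendsto (zs, 0, 1)).comp
        (hzt.prodMk_nhds (tendsto_const_nhds.prodMk_nhds tendsto_const_nhds)))
    have h4 : Tendsto (fun B => B ⊔ F.P (zc B) 0 1) g (𝓝 (F.P zs 0 1)) := by
      refine ((F.P_cont.tendsto (zs, 0, 1)).comp
        (hzt.prodMk_nhds (tendsto_const_nhds.prodMk_nhds tendsto_const_nhds))).congr' ?_
      filter_upwards [hS] with B hB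
      exact (F.sub_of_leg (hzc' B hB)).symm
    have h5 : A ⊔ F.P zs 0 1 = F.P zs 0 1 := tendsto_nhds_unique h3 h4
    rw [F.r_leg z0 (F.mem_leg_of_sub h5)]
    exact h2
  · obtain ⟨ts, hts, htt⟩ := (isCompact_Icc (a := (0:ℝ)) (b := 1)).ultrafilter_le_nhds'
      (g.map (fun B => tau (F.mn B) (F.sg z0 B)))
      (by
        rw [Ultrafilter.mem_map]
        exact Filter.univ_mem' (fun B => tau_mem _ _))
    have htt' : Tendsto (fun B => tau (F.mn B) (F.sg z0 B)) g (𝓝 ts) := htt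
    have hmx0 : ∀ B, max 0 (F.mx B) = F.mx B := fun B =>
      max_eq_right ((F.mn_nonneg B).trans (F.mn_le_mx B))
    have h1 : Tendsto (fun B => F.G z0 (F.mn B) (max 0 (F.mx B)) (tau (F.mn B) (F.sg z0 B)) (F.D B))
        g (𝓝 (F.G z0 (F.mn A) (max 0 (F.mx A)) ts (F.D A))) :=
      ((F.G_cont z0).tendsto (F.mn A, F.mx A, ts, F.D A)).comp
        (hmn.prodMk_nhds (hmx.prodMk_nhds (htt'.prodMk_nhds hD)))
    have h2 : Tendsto (F.r z0) g (𝓝 (F.G z0 (F.mn A) (F.mx A) ts (F.D A))) := by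
      rw [hmx0] at h1
      refine h1.congr' ?_
      filter_upwards [hN] with B hB
      rw [hmx0, r, dif_neg hB]
    suffices h : F.G z0 (F.mn A) (F.mx A) ts (F.D A) = F.r z0 A by rw [← h]; exact h2
    have hy0 : ∀ x ∈ A, F.ht x * dist (F.bs x) z0 ≤ F.sg z0 A := by
      intro x hx
      refine le_csSup ?_ ⟨x, hx, rfl⟩
      exact (A.isCompact.image (F.y_cont z0)).bddAbove
    have hs0 : 0 ≤ F.sg z0 A := by
      obtain ⟨x, hx⟩ := A.nonempty
      exact (mul_nonneg (F.ht_mem x).1 dist_nonneg).trans (hy0 x hx)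
    by_cases hm : F.mn A = 0
    · by_cases hs : F.sg z0 A = 0
      · have hleg : (A : Set M) ⊆ F.leg z0 := by
          intro x hx
          have h3 := hy0 x hx
          rw [hs] at h3
          have h4 : F.ht x * dist (F.bs x) z0 = 0 :=
            le_antisymm h3 (mul_nonneg (F.ht_mem x).1 dist_nonneg)
          rcases mul_eq_zero.1 h4 with h5 | h5
          · exact Or.inl h5
          · exact Or.inr (dist_eq_zero.1 h5)
        rw [F.r_leg z0 hleg, F.D_leg hleg, hm]
        exact F.G_leg z0 ⟨hm ▸ F.mn_le_mx A, F.mx_le_one A⟩ hts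
      · have hs' : 0 < F.sg z0 A := lt_of_le_of_ne hs0 (Ne.symm hs)
        have h3 : Tendsto (fun B => 2 * F.mn B - F.sg z0 B) g (𝓝 (2 * F.mn A - F.sg z0 A)) :=
          (hmn.const_mul 2).sub hsg
        rw [hm] at h3
        have h4 : ∀ᶠ B in (g : Filter _), 2 * F.mn B - F.sg z0 B < 0 :=
          h3.eventually_lt_const (by linarith)
        have h5 : Tendsto (fun B => tau (F.mn B) (F.sg z0 B)) g (𝓝 1) := by
          refine tendsto_const_nhds.congr' ?_
          filter_upwards [h4] with B hB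
          unfold tau
          split_ifs with h
          · rfl
          · have hpos : 0 < F.mn B := lt_of_le_of_ne (F.mn_nonneg B) (Ne.symm h)
            have h6 : 1 ≤ (F.sg z0 B - F.mn B) / F.mn B := by
              rw [le_div_iff₀ hpos]; linarith
            rw [min_eq_left h6]
            norm_num
        have h6 : ts = 1 := tendsto_nhds_unique htt' h5
        subst h6
        rw [F.G_one]
        by_cases hSL : ∃ z, (A : Set M) ⊆ F.leg z
        · obtain ⟨z, hz⟩ := hSL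
          rw [F.r_leg z0 hz, F.D_leg hz, hm]
        · rw [r, dif_neg hSL]
          have : tau (F.mn A) (F.sg z0 A) = 1 := by unfold tau; rw [if_pos hm]
          rw [this, F.G_one]
    · have hpos : 0 < F.mn A := lt_of_le_of_ne (F.mn_nonneg A) (Ne.symm hm)
      have h3 : ∀ᶠ B in (g : Filter _), 0 < F.mn B := hmn.eventually_const_lt hpos
      have h4 : Tendsto (fun B => tau (F.mn B) (F.sg z0 B)) g
          (𝓝 (tau (F.mn A) (F.sg z0 A))) := by
        have h5 : Tendsto (fun B => max 0 (min 1 ((F.sg z0 B - F.mn B) / F.mn B))) g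
            (𝓝 (max 0 (min 1 ((F.sg z0 A - F.mn A) / F.mn A)))) :=
          tendsto_const_nhds.max (tendsto_const_nhds.min ((hsg.sub hmn).div hmn hm))
        have h6 : tau (F.mn A) (F.sg z0 A) = max 0 (min 1 ((F.sg z0 A - F.mn A) / F.mn A)) := by
          unfold tau; rw [if_neg hm]
        rw [h6]
        refine h5.congr' ?_
        filter_upwards [h3] with B hB
        unfold tau
        rw [if_neg hB.ne']
      have h5 : ts = tau (F.mn A) (F.sg z0 A) := tendsto_nhds_unique htt' h4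
      by_cases hSL : ∃ z, (A : Set M) ⊆ F.leg z
      · obtain ⟨z, hz⟩ := hSL
        have hbs : ∀ x ∈ A, 0 < F.ht x ∧ F.bs x = z := by
          intro x hx
          have h6 : 0 < F.ht x := hpos.trans_le (F.mn_le hx)
          rcases hz hx with h7 | h7
          · exact absurd h7 h6.ne'
          · exact ⟨h6, h7⟩
        have hz0 : z = z0 := by
          by_contra hne
          have h6 : ∀ᶠ B : NonemptyCompacts M in (g : Filter _),
              (B : Set M) ⊆ {x : M | 0 < F.ht x ∧ F.bs x = z} :=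
            hg ((NonemptyCompacts.isOpen_subsets_of_isOpen (F.U_open (hiso z hne))).mem_nhds
              (fun x hx => hbs x hx))
          obtain ⟨B, hB1, hB2⟩ := (hN.and h6).exists
          exact hB1 ⟨z, fun x hx => Or.inr (hB2 hx).2⟩
        subst hz0
        have h6 : F.sg z A = 0 := by
          refine le_antisymm ?_ hs0
          refine csSup_le (A.nonempty.image _) ?_
          rintro _ ⟨x, hx, rfl⟩
          simp only
          rw [(hbs x hx).2, dist_self, mul_zero]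
        have h7 : ts = 0 := by
          rw [h5, h6]
          unfold tau
          rw [if_neg hm]
          have : (0 - F.mn A) / F.mn A = -1 := by
            rw [zero_sub, neg_div, div_self hm]
          rw [this]
          norm_num
        rw [F.r_leg z hz, h7]
        unfold G
        rw [if_pos (by norm_num)]
        norm_num
      · rw [r, dif_neg hSL, h5]

lemma W_open {B : Set Z} (hB : IsOpen B) {c : ℝ} (hc : 0 ≤ c) :
    IsOpen {x : M | c < F.ht x ∧ F.bs x ∈ B} := by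
  rw [← F.Q_quot.isOpen_preimage]
  have : F.Q ⁻¹' {x : M | c < F.ht x ∧ F.bs x ∈ B} =
      {x : Z × Icc (0:ℝ) 1 | c < (x.2 : ℝ)} ∩ Prod.fst ⁻¹' B := by
    ext x
    simp only [mem_preimage, Set.mem_ofPred_eq, mem_inter_iff]
    change (c < F.ht (F.q x.1 x.2) ∧ F.bs (F.q x.1 x.2) ∈ B) ↔ _
    rw [F.ht_q x.1 x.2.2]
    constructor
    · rintro ⟨h1, h2⟩
      rw [F.bs_q x.1 x.2.2 (hc.trans_lt h1).ne'] at h2
      exact ⟨h1, h2⟩
    · rintro ⟨h1, h2⟩
      rw [F.bs_q x.1 x.2.2 (hc.trans_lt h1).ne']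
      exact ⟨h1, h2⟩
  rw [this]
  exact (isOpen_lt continuous_const (by fun_prop)).inter (hB.preimage continuous_fst)

lemma W_closed {B : Set Z} (hB : IsClosed B) {c : ℝ} (hc : 0 < c) :
    IsClosed {x : M | c ≤ F.ht x ∧ F.bs x ∈ B} := by
  rw [← F.Q_quot.isClosed_preimage]
  have : F.Q ⁻¹' {x : M | c ≤ F.ht x ∧ F.bs x ∈ B} =
      {x : Z × Icc (0:ℝ) 1 | c ≤ (x.2 : ℝ)} ∩ Prod.fst ⁻¹' B := by
    ext x
    simp only [mem_preimage, Set.mem_ofPred_eq, mem_inter_iff]
    change (c ≤ F.ht (F.q x.1 x.2) ∧ F.bs (F.q x.1 x.2) ∈ B) ↔ _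
    rw [F.ht_q x.1 x.2.2]
    constructor
    · rintro ⟨h1, h2⟩
      rw [F.bs_q x.1 x.2.2 (hc.trans_le h1).ne'] at h2
      exact ⟨h1, h2⟩
    · rintro ⟨h1, h2⟩
      rw [F.bs_q x.1 x.2.2 (hc.trans_le h1).ne']
      exact ⟨h1, h2⟩
  rw [this]
  exact (isClosed_le continuous_const (by fun_prop)).inter (hB.preimage continuous_fst)

/-- a connected set which avoids the vertex lies in one leg -/
lemma conn_bs (z0 : Z) (hiso : ∀ z ≠ z0, IsOpen ({z} : Set Z)) {C : Set M}
    (hC : IsPreconnected C) (hpos : ∀ x ∈ C, 0 < F.ht x) {x y : M} (hx : x ∈ C) (hy : y ∈ C) :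
    F.bs x = F.bs y := by
  by_contra hne
  have key : ∀ a b : M, a ∈ C → b ∈ C → F.bs a ≠ F.bs b → F.bs a ≠ z0 → False := by
    intro a b ha hb hab ha0
    have hopen := F.W_open (hiso _ ha0) (le_refl (0:ℝ))
    have hopen' := F.W_open (isClosed_singleton (x := F.bs a)).isOpen_compl (le_refl (0:ℝ))
    obtain ⟨w, _, hw1, hw2⟩ := hC _ _ hopen hopen' (by
      intro w hw
      by_cases h : F.bs w = F.bs a
      · exact Or.inl ⟨hpos w hw, h⟩
      · exact Or.inr ⟨hpos w hw, h⟩) ⟨a, ha, hpos a ha, rfl⟩ ⟨b, hb, hpos b hb, fun h => hab h.symm⟩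
    exact hw2.2 hw1.2
  by_cases h0 : F.bs x = z0
  · exact key y x hy hx (Ne.symm hne) (fun h => hne (h0.trans h.symm))
  · exact key x y hx hy hne h0

lemma exists_clopen (z0 : Z) (hiso : ∀ z ≠ z0, IsOpen ({z} : Set Z)) (z : Z) (O : Set Z)
    (hO : IsOpen O) (hz : z ∈ O) : ∃ B : Set Z, IsClopen B ∧ z ∈ B ∧ B ⊆ O := by
  by_cases h : z = z0
  · subst h
    refine ⟨O, ⟨?_, hO⟩, hz, Subset.rfl⟩
    rw [← isOpen_compl_iff]
    have : Oᶜ = ⋃ w ∈ Oᶜ, {w} := by ext w; simp
    rw [this]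
    exact isOpen_biUnion fun w hw => hiso w (fun h => hw (h ▸ hz))
  · exact ⟨{z}, ⟨isClosed_singleton, hiso z h⟩, rfl, singleton_subset_iff.2 hz⟩

lemma down_closed (z0 : Z) (hiso : ∀ z ≠ z0, IsOpen ({z} : Set Z)) {A : NonemptyCompacts M}
    (hA : IsConnected (A : Set M)) {v : M} (hv : v ∈ A) (hv0 : F.ht v = 0) {x : M} (hx : x ∈ A)
    {l : ℝ} (hl : l ∈ Icc (0:ℝ) 1) : F.sc l x ∈ A := by
  by_contra hcon
  unfold sc at hcon
  set z := F.bs x with hz
  set h' := l * F.ht x with hh'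
  have hht := F.ht_mem x
  have h'0 : 0 ≤ h' := mul_nonneg hl.1 hht.1
  have h'1 : h' ≤ F.ht x := by nlinarith [hl.2, hht.1]
  have hne0 : h' ≠ 0 := by
    intro h0
    apply hcon
    rw [h0, F.q_zero z (F.bs v), ← hv0, F.q_bs_ht]
    exact hv
  have hpos : 0 < h' := lt_of_le_of_ne h'0 (Ne.symm hne0)
  have hlt : h' < F.ht x := by
    refine lt_of_le_of_ne h'1 fun he => hcon ?_
    rw [he, hz, F.q_bs_ht]
    exact hx
  have hO : IsOpen {w : Z | F.q w h' ∉ A} := by
    have h1 : Continuous fun w : Z => F.q w h' := F.cont.comp (continuous_id.prodMk continuous_const)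
    exact (A.isCompact.isClosed.preimage h1).isOpen_compl
  obtain ⟨B, hB, hzB, hBO⟩ := exists_clopen z0 hiso z _ hO hcon
  have hW1 := F.W_open hB.2 h'0
  have hW2 := (F.W_closed hB.1 hpos).isOpen_compl
  obtain ⟨w, hwA, hw1, hw2⟩ := hA.2 _ _ hW1 hW2 (by
    intro w hw
    by_cases h : h' ≤ F.ht w ∧ F.bs w ∈ B
    · left
      refine ⟨lt_of_le_of_ne h.1 fun he => hBO h.2 ?_, h.2⟩
      rw [he, F.q_bs_ht]
      exact hw
    · exact Or.inr h) ⟨x, hx, hlt, hzB⟩ ⟨v, hv, fun h => by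
      have := h.1
      rw [hv0] at this
      linarith⟩
  exact hw2 ⟨hw1.1.le, hw1.2⟩

lemma D_eq (z0 : Z) (hiso : ∀ z ≠ z0, IsOpen ({z} : Set Z)) {A : NonemptyCompacts M}
    (hA : IsConnected (A : Set M)) {v : M} (hv : v ∈ A) (hv0 : F.ht v = 0) : F.D A = A := by
  apply NonemptyCompacts.ext
  ext x
  rw [SetLike.mem_coe, F.mem_D]
  constructor
  · rintro ⟨l, hl, y, hy, rfl⟩
    exact F.down_closed z0 hiso hA hv hv0 hy hl
  · intro hx
    exact ⟨1, by simp, x, hx, by unfold sc; rw [one_mul, F.q_bs_ht]⟩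

lemma P_eq {A : NonemptyCompacts M} (hA : IsConnected (A : Set M)) {z : Z}
    (hz : (A : Set M) ⊆ F.leg z) : F.P z (F.mn A) (F.mx A) = A := by
  apply NonemptyCompacts.ext
  ext x
  rw [SetLike.mem_coe, F.mem_P (F.mn_le_mx A)]
  constructor
  · rintro ⟨h, hh, rfl⟩
    have h1 : IsPreconnected (F.ht '' (A : Set M)) := hA.2.image _ F.ht_cont.continuousOn
    obtain ⟨a, ha, ha'⟩ := F.exists_mn A
    obtain ⟨b, hb, hb'⟩ := F.exists_mx A
    have h2 : Icc (F.mn A) (F.mx A) ⊆ F.ht '' (A : Set M) :=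
      h1.Icc_subset ⟨a, ha, ha'⟩ ⟨b, hb, hb'⟩
    obtain ⟨y, hy, hy'⟩ := h2 hh
    rw [← hy', F.leg_eq (hz hy)]
    exact hy
  · intro hx
    exact ⟨F.ht x, ⟨F.mn_le hx, F.le_mx hx⟩, F.leg_eq (hz hx)⟩

lemma r_eq (z0 : Z) (hiso : ∀ z ≠ z0, IsOpen ({z} : Set Z)) (A : NonemptyCompacts M)
    (hA : IsConnected (A : Set M)) : F.r z0 A = A := by
  by_cases hSL : ∃ z, (A : Set M) ⊆ F.leg z
  · obtain ⟨z, hz⟩ := hSL
    rw [F.r_leg z0 hz, F.P_eq hA hz]
  · have hv : ∃ v ∈ A, F.ht v = 0 := by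
      by_contra hcon
      push Not at hcon
      apply hSL
      obtain ⟨x, hx⟩ := A.nonempty
      refine ⟨F.bs x, fun y hy => Or.inr ?_⟩
      exact F.conn_bs z0 hiso hA.2
        (fun w hw => lt_of_le_of_ne (F.ht_mem w).1 (Ne.symm (hcon w hw))) hy hx
    obtain ⟨v, hv, hv0⟩ := hv
    have hmn : F.mn A = 0 := le_antisymm (hv0 ▸ F.mn_le hv) (F.mn_nonneg A)
    rw [r, dif_neg hSL]
    have : tau (F.mn A) (F.sg z0 A) = 1 := by unfold tau; rw [if_pos hmn]
    rw [this, F.G_one, F.D_eq z0 hiso hA hv hv0]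

lemma D_conn (A : NonemptyCompacts M) : IsConnected (F.D A : Set M) := by
  refine ⟨(F.D A).nonempty, ?_⟩
  obtain ⟨y, hy⟩ := A.nonempty
  refine isPreconnected_of_forall (F.q (F.bs y) 0) ?_
  intro x hx
  obtain ⟨l, hl, w, hw, rfl⟩ := (F.mem_D A x).1 hx
  refine ⟨(fun s => F.sc s w) '' Icc 0 1, ?_, ?_, ?_, ?_⟩
  · rintro _ ⟨s, hs, rfl⟩
    exact (F.mem_D A _).2 ⟨s, hs, w, hw, rfl⟩
  · refine ⟨0, by simp, ?_⟩
    change F.q (F.bs w) (0 * F.ht w) = _
    rw [zero_mul]
    exact F.q_zero _ _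
  · exact ⟨l, hl, rfl⟩
  · exact isPreconnected_Icc.image _
      (F.sc_cont.comp (continuous_id.prodMk continuous_const)).continuousOn

lemma G_conn (z0 : Z) (m x t : ℝ) (hx : 0 ≤ x) (ht : t ∈ Icc (0:ℝ) 1) (A : NonemptyCompacts M) :
    IsConnected (F.G z0 m x t (F.D A) : Set M) := by
  unfold G
  split_ifs with h
  · exact F.P_conn _ _ _
  · rw [NonemptyCompacts.coe_sup]
    have hc : 0 ≤ min 1 (3 - 3 * t) := le_min (by norm_num) (by linarith [ht.2])
    refine IsConnected.union ⟨F.q z0 0, F.v_mem_P _ _ (mul_nonneg hc hx), ?_⟩ (F.P_conn _ _ _) ?_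
    · refine (F.mem_S _ _ _).2 ⟨F.q z0 0, F.q_zero_mem_D _ _, ?_⟩
      rw [F.sc_q _ z0 (by simp), mul_zero]
    · rw [S, NonemptyCompacts.coe_map]
      exact (F.D_conn A).image _ (F.sc_cont.comp (continuous_const.prodMk continuous_id)).continuousOn

lemma r_conn (z0 : Z) (A : NonemptyCompacts M) : IsConnected (F.r z0 A : Set M) := by
  unfold r
  split_ifs with h
  · exact F.P_conn _ _ _
  · exact F.G_conn z0 _ _ _ ((F.mn_nonneg A).trans (F.mn_le_mx A)) (tau_mem _ _) A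

include F in
theorem retract (z0 : Z) (hiso : ∀ z ≠ z0, IsOpen ({z} : Set Z)) : RetractExists M :=
  ⟨F.r z0, F.r_cont z0 hiso, F.r_conn z0, F.r_eq z0 hiso⟩

include F in
theorem not_lc (z0 : Z) (hiso : ∀ z ≠ z0, IsOpen ({z} : Set Z))
    (hacc : ∀ U ∈ 𝓝 z0, ∃ z ∈ U, z ≠ z0) : ¬ LocallyConnectedSpace M := by
  intro hlc
  rw [locallyConnectedSpace_iff_connected_subsets] at hlc
  have h1 : (1:ℝ) ∈ Icc (0:ℝ) 1 := by simp
  have hU : {x : M | 0 < F.ht x} ∈ 𝓝 (F.q z0 1) := by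
    refine (isOpen_lt continuous_const F.ht_cont).mem_nhds ?_
    change 0 < F.ht (F.q z0 1)
    rw [F.ht_q z0 h1]
    norm_num
  obtain ⟨V, hV, hVc, hVU⟩ := hlc _ _ hU
  have hc : Continuous fun w : Z => F.q w 1 := F.cont.comp (continuous_id.prodMk continuous_const)
  obtain ⟨z, hz, hne⟩ := hacc _ (hc.continuousAt hV)
  have := F.conn_bs z0 hiso hVc (fun x hx => hVU hx) (x := F.q z 1) (y := F.q z0 1) hz
    (mem_of_mem_nhds hV)
  rw [F.bs_q z h1 one_ne_zero, F.bs_q z0 h1 one_ne_zero] at this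
  exact hne this

end Fan

lemma cone_t2 (Z : Type) [MetricSpace Z] : T2Space (Cone Z) := by
  let f : Cone Z → ℝ × (Z → ℝ) := Quotient.lift
    (fun a : Z × unitInterval => ((1 - (a.2 : ℝ)), fun w : Z => (1 - (a.2 : ℝ)) * dist a.1 w))
    (by
      rintro a b (h | ⟨h1, h2⟩)
      · rw [h]
      · simp [h1, h2])
  have hf : Continuous f := by
    refine Continuous.quotient_lift ?_ _
    fun_prop
  refine T2Space.of_injective_continuous (f := f) ?_ hf
  intro x y
  refine Quotient.inductionOn₂ x y ?_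
  intro a b hab
  have h1 : (1 - (a.2 : ℝ)) = 1 - (b.2 : ℝ) := congrArg Prod.fst hab
  have h2 : (1 - (a.2 : ℝ)) * dist a.1 b.1 = (1 - (b.2 : ℝ)) * dist b.1 b.1 :=
    congrFun (congrArg Prod.snd hab) b.1
  have h3 : a.2 = b.2 := Subtype.ext (by linarith)
  refine Quotient.sound ?_
  rw [dist_self, mul_zero] at h2
  rcases mul_eq_zero.1 h2 with h | h
  · right
    have : a.2 = 1 := by
      apply Subtype.ext
      change (a.2 : ℝ) = 1
      linarith
    exact ⟨this, h3 ▸ this⟩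
  · left
    exact Prod.ext (dist_eq_zero.1 h) h3

/-- the quotient map -/
def cmk {Z : Type} (a : Z × unitInterval) : Cone Z := Quotient.mk (coneSetoid Z) a

lemma cmk_cont (Z : Type) [TopologicalSpace Z] : Continuous (cmk : Z × unitInterval → Cone Z) :=
  continuous_quotient_mk'

lemma cmk_surj {Z : Type} (x : Cone Z) : ∃ a : Z × unitInterval, cmk a = x :=
  Quotient.exists_rep x

lemma cmk_eq {Z : Type} (a b : Z × unitInterval) :
    cmk a = cmk b ↔ a = b ∨ (a.2 = 1 ∧ b.2 = 1) :=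
  ⟨fun h => Quotient.exact h, fun h => Quotient.sound h⟩

/-- a space homeomorphic to the cone, parametrised by base points and heights -/
noncomputable def coneFan (Z : Type) [MetricSpace Z] (M : Type) [TopologicalSpace M]
    (e : M ≃ₜ Cone Z) : Fan Z M where
  q z h := e.symm (cmk (z, unitInterval.symm (projIcc 0 1 zero_le_one h)))
  cont := by
    refine e.symm.continuous.comp ((cmk_cont Z).comp ?_)
    exact continuous_fst.prodMk (unitInterval.continuous_symm.comp
      (continuous_projIcc.comp continuous_snd))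
  surj := by
    intro x
    obtain ⟨⟨z, t⟩, h⟩ := cmk_surj (e x)
    refine ⟨z, 1 - (t : ℝ), ⟨by linarith [t.2.2], by linarith [t.2.1]⟩, ?_⟩
    rw [Homeomorph.symm_apply_eq, ← h]
    congr 2
    apply Subtype.ext
    rw [unitInterval.coe_symm_eq, projIcc_of_mem _ ⟨by linarith [t.2.2], by linarith [t.2.1]⟩]
    change 1 - (1 - (t : ℝ)) = t
    ring
  inj := by
    intro z z' h h' hh hh'
    have key : ∀ s : ℝ, s ∈ Icc (0:ℝ) 1 →
        ((unitInterval.symm (projIcc 0 1 zero_le_one s) : unitInterval) : ℝ) = 1 - s := by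
      intro s hs
      rw [unitInterval.coe_symm_eq, projIcc_of_mem _ hs]
    rw [e.symm.injective.eq_iff, cmk_eq]
    constructor
    · rintro (h1 | ⟨h1, h2⟩)
      · left
        have h3 : z = z' := congrArg Prod.fst h1
        have h4 := congrArg (fun x : Z × unitInterval => ((x.2 : unitInterval) : ℝ)) h1
        simp only [key h hh, key h' hh'] at h4
        exact ⟨h3, by linarith⟩
      · right
        have h3 := congrArg (fun x : unitInterval => (x : ℝ)) h1
        have h4 := congrArg (fun x : unitInterval => (x : ℝ)) h2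
        simp only [key h hh, key h' hh'] at h3 h4
        simp only [Set.Icc.coe_one] at h3 h4
        exact ⟨by linarith, by linarith⟩
    · rintro (⟨rfl, rfl⟩ | ⟨rfl, rfl⟩)
      · exact Or.inl rfl
      · refine Or.inr ⟨?_, ?_⟩
        · apply Subtype.ext
          rw [key 0 hh]
          norm_num
        · apply Subtype.ext
          rw [key 0 hh]
          norm_num

lemma isolated_of_unique {Z : Type} [MetricSpace Z]
    (h : ∃! z : Z, AccPt z (𝓟 (univ : Set Z))) :
    ∃ z0 : Z, (∀ z ≠ z0, IsOpen ({z} : Set Z)) ∧ ∀ U ∈ 𝓝 z0, ∃ z ∈ U, z ≠ z0 := by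
  obtain ⟨z0, hz0, huniq⟩ := h
  refine ⟨z0, fun z hz => ?_, fun U hU => ?_⟩
  · by_contra hcon
    apply hz
    apply huniq
    rw [isOpen_singleton_iff_punctured_nhds] at hcon
    rw [accPt_iff_nhds]
    intro U hU
    by_contra h1
    push Not at h1
    apply hcon
    rw [← Filter.empty_mem_iff_bot]
    rw [mem_nhdsWithin_iff_exists_mem_nhds_inter]
    refine ⟨U, hU, ?_⟩
    rintro y ⟨hy, hy'⟩
    exact hy' (h1 y ⟨hy, mem_univ _⟩)
  · rw [accPt_iff_nhds] at hz0
    obtain ⟨y, hy, hne⟩ := hz0 U hU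
    exact ⟨y, hy.1, hne⟩

theorem cone_retract (Z : Type) [MetricSpace Z] [CompactSpace Z]
    (h : ∃! z : Z, AccPt z (𝓟 (univ : Set Z))) (M : Type) [TopologicalSpace M]
    (e : Nonempty (M ≃ₜ Cone Z)) : RetractExists M := by
  obtain ⟨e⟩ := e
  obtain ⟨z0, hiso, _⟩ := isolated_of_unique h
  have := cone_t2 Z
  have : T2Space M := T2Space.of_injective_continuous e.injective e.continuous
  exact (coneFan Z M e).retract z0 hiso

/-- the base of the planar harmonic fan -/
def S0 : Set ℝ := insert 0 (range fun n : ℕ => 1 / ((n : ℝ) + 1))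

lemma S0_compact : IsCompact S0 :=
  (tendsto_one_div_add_atTop_nhds_zero_nat (𝕜 := ℝ)).isCompact_insert_range

/-- the planar harmonic fan -/
def HF : Set (ℝ × ℝ) := {x | ∃ z ∈ S0, ∃ h ∈ Icc (0:ℝ) 1, x = (h, h * z)}

lemma HF_compact : IsCompact HF := by
  have h : HF = (fun x : ℝ × ℝ => (x.2, x.2 * x.1)) '' (S0 ×ˢ Icc (0:ℝ) 1) := by
    ext x
    constructor
    · rintro ⟨z, hz, h, hh, rfl⟩
      exact ⟨(z, h), ⟨hz, hh⟩, rfl⟩
    · rintro ⟨⟨z, h⟩, ⟨hz, hh⟩, rfl⟩
      exact ⟨z, hz, h, hh, rfl⟩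
  rw [h]
  exact (S0_compact.prod isCompact_Icc).image (by fun_prop)

lemma HF_connected : IsConnected HF := by
  refine ⟨⟨(0, 0 * 0), 0, mem_insert _ _, 0, by simp, rfl⟩, ?_⟩
  refine isPreconnected_of_forall (0, 0) ?_
  rintro _ ⟨z, hz, h, hh, rfl⟩
  refine ⟨(fun t : ℝ => (t, t * z)) '' Icc 0 1, ?_, ⟨0, by simp, by simp⟩, ⟨h, hh, rfl⟩, ?_⟩
  · rintro _ ⟨t, ht, rfl⟩
    exact ⟨z, hz, t, ht, rfl⟩
  · exact isPreconnected_Icc.image _ (by fun_prop)

/-- the planar harmonic fan as a fan -/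
noncomputable def HFan : Fan S0 HF where
  q z h := ⟨((projIcc 0 1 zero_le_one h : unitInterval), (projIcc 0 1 zero_le_one h : unitInterval) *
    (z : ℝ)), (z : ℝ), z.2, _, (projIcc 0 1 zero_le_one h : unitInterval).2, rfl⟩
  cont := by
    refine Continuous.subtype_mk ?_ _
    have h1 : Continuous fun x : S0 × ℝ =>
        ((projIcc 0 1 zero_le_one x.2 : unitInterval) : ℝ) :=
      continuous_subtype_val.comp (continuous_projIcc.comp continuous_snd)
    exact h1.prodMk (h1.mul (continuous_subtype_val.comp continuous_fst))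
  surj := by
    rintro ⟨_, z, hz, h, hh, rfl⟩
    refine ⟨⟨z, hz⟩, h, hh, ?_⟩
    apply Subtype.ext
    simp only [projIcc_of_mem _ hh]
  inj := by
    rintro ⟨z, hz⟩ ⟨z', hz'⟩ h h' hh hh'
    rw [Subtype.ext_iff]
    simp only [projIcc_of_mem _ hh, projIcc_of_mem _ hh', Prod.mk.injEq, Subtype.mk.injEq]
    constructor
    · rintro ⟨rfl, h2⟩
      by_cases h0 : h = 0
      · exact Or.inr ⟨h0, h0⟩
      · exact Or.inl ⟨mul_left_cancel₀ h0 h2, rfl⟩
    · rintro (⟨rfl, rfl⟩ | ⟨rfl, rfl⟩)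
      · exact ⟨rfl, rfl⟩
      · simp

lemma S0_mem (n : ℕ) : 1 / ((n : ℝ) + 1) ∈ S0 := Or.inr ⟨n, rfl⟩

lemma S0_iso : ∀ z : S0, z ≠ ⟨0, mem_insert _ _⟩ → IsOpen ({z} : Set S0) := by
  rintro ⟨z, hz⟩ hne
  rcases hz with rfl | ⟨n, hn⟩
  · exact absurd rfl hne
  · have hn' : z = 1 / ((n : ℝ) + 1) := hn.symm
    subst hn'
    have h : ({⟨1 / ((n : ℝ) + 1), S0_mem n⟩} : Set S0) =
        Subtype.val ⁻¹' Ioo (1 / ((n : ℝ) + 2)) (1 / ((n : ℝ) + 1 / 2)) := by
      ext w
      rw [mem_singleton_iff, Subtype.ext_iff, mem_preimage]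
      constructor
      · intro hw
        rw [hw]
        constructor
        · exact one_div_lt_one_div_of_lt (by positivity) (by linarith)
        · exact one_div_lt_one_div_of_lt (by positivity) (by linarith)
      · rintro ⟨h1, h2⟩
        rcases w.2 with hw | ⟨m, hw⟩
        · exfalso
          have : (0:ℝ) < 1 / ((n : ℝ) + 2) := by positivity
          rw [hw] at h1
          linarith
        · have hw' : (w : ℝ) = 1 / ((m : ℝ) + 1) := hw.symm
          rw [hw'] at h1 h2 ⊢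
          rw [one_div_lt_one_div (by positivity) (by positivity)] at h1 h2
          have h3 : (m : ℝ) < (n : ℝ) + 1 := by linarith
          have h4 : (n : ℝ) < (m : ℝ) + 1 := by linarith
          have h3' : m < n + 1 := by exact_mod_cast h3
          have h4' : n < m + 1 := by exact_mod_cast h4
          have : m = n := by omega
          rw [this]
    change IsOpen ({⟨1 / ((n : ℝ) + 1), S0_mem n⟩} : Set S0)
    rw [h]
    exact isOpen_Ioo.preimage continuous_subtype_val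

lemma S0_acc : ∀ U ∈ 𝓝 (⟨0, mem_insert _ _⟩ : S0), ∃ z ∈ U, z ≠ (⟨0, mem_insert _ _⟩ : S0) := by
  intro U hU
  have h : Tendsto (fun n : ℕ => (⟨1 / ((n : ℝ) + 1), S0_mem n⟩ : S0)) atTop
      (𝓝 (⟨0, mem_insert _ _⟩ : S0)) := by
    rw [tendsto_subtype_rng]
    exact tendsto_one_div_add_atTop_nhds_zero_nat (𝕜 := ℝ)
  obtain ⟨n, hn⟩ := (h.eventually hU).exists
  refine ⟨_, hn, fun heq => ?_⟩
  have : 1 / ((n : ℝ) + 1) = 0 := congrArg Subtype.val heq
  have h2 : (0:ℝ) < 1 / ((n : ℝ) + 1) := by positivity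
  linarith

/-- **A retraction of `2^M` onto `C(M)` for the harmonic fan.**
The first part answers Q2: for the cone `M` over a compact metric space with exactly one limit
point, `C(M)` is a retract of `2^M`. The second part answers Q1: there is a continuum (in the
plane) which is not locally connected and for which such a retraction exists. -/
theorem result :
    (∀ (Z : Type) [MetricSpace Z] [CompactSpace Z], (∃! z : Z, AccPt z (𝓟 (univ : Set Z))) →
      ∀ (M : Type) [TopologicalSpace M], Nonempty (M ≃ₜ Cone Z) → RetractExists M) ∧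
    (∃ M : Set (ℝ × ℝ), IsCompact M ∧ IsConnected M ∧ ¬ LocallyConnectedSpace M ∧
      RetractExists M) := by
  refine ⟨fun Z _ _ h M _ e => cone_retract Z h M e, HF, HF_compact, HF_connected, ?_, ?_⟩
  · have : CompactSpace S0 := isCompact_iff_compactSpace.1 S0_compact
    exact HFan.not_lc _ S0_iso S0_acc
  · have : CompactSpace S0 := isCompact_iff_compactSpace.1 S0_compact
    exact HFan.retract _ S0_iso

end Pool.Agent.Results.MP_85483e_gt.FanRetract
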